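import Pool.Agent.helper70.LZ.SpecZ

/-!
# Row ZL3: rationality of `EE p K η η'`
-/

set_option autoImplicit false

namespace Pool.Agent.LE

open Pool.Agent.helper58.DC Pool.Agent.DI Pool.Agent.GR Pool.Agent.OB Pool.Agent.DR Pool.Agent.FI Pool.Agent.FI3 Pool.Agent.FI4

theorem ZL3_trace {V : Type} [AddCommGroup V] [Module ℂ V] [FiniteDimensional ℂ V]
    (f : Module.End ℂ V) (N : ℕ) (hN : 0 < N) (hf : f ^ N = 1) (ζ : ℂ) (hζ : IsPrimitiveRoot ζ N) :
    ∃ P : Polynomial ℤ, ∀ s : ℕ, LinearMap.trace ℂ V (f ^ s) = Polynomial.aeval (ζ ^ s) P := by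
  classical
  have hNN : NeZero N := ⟨hN.ne'⟩
  have hss : f.IsSemisimple := by
    have hsep : (Polynomial.X ^ N - 1 : Polynomial ℂ).Separable := by
      have h1 := (Polynomial.X_pow_sub_one_separable_iff (F := ℂ) (n := N)).2
        (by exact_mod_cast hN.ne')
      exact h1
    apply Module.End.isSemisimple_of_squarefree_aeval_eq_zero hsep.squarefree
    simp [hf]
  have htop : ⨆ μ : ℂ, f.eigenspace μ = ⊤ := by
    have h1 := Module.End.iSup_maxGenEigenspace_eq_top f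
    have h2 : ∀ μ : ℂ, f.maxGenEigenspace μ = f.eigenspace μ := fun μ =>
      hss.isFinitelySemisimple.maxGenEigenspace_eq_eigenspace μ
    simpa only [h2] using h1
  have hint : DirectSum.IsInternal (fun μ : ℂ => f.eigenspace μ) :=
    DirectSum.isInternal_submodule_of_iSupIndep_of_iSup_eq_top f.eigenspaces_iSupIndep htop
  have hfin : {μ : ℂ | f.eigenspace μ ≠ ⊥}.Finite := f.finite_hasEigenvalue
  have hmap : ∀ (k : ℕ) (μ : ℂ), Set.MapsTo (f ^ k) (f.eigenspace μ) (f.eigenspace μ) := by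
    intro k μ
    exact Module.End.mapsTo_genEigenspace_of_comm (Commute.pow_right (Commute.refl f) k) μ 1
  have hact : ∀ (k : ℕ) (μ : ℂ) (v : V), v ∈ f.eigenspace μ → (f ^ k) v = μ ^ k • v := by
    intro k μ v hv
    induction k with
    | zero => simp
    | succ k ih =>
      rw [pow_succ', Module.End.mul_apply, ih, map_smul, Module.End.mem_eigenspace_iff.1 hv,
        smul_smul, pow_succ]
  have htr : ∀ (k : ℕ), LinearMap.trace ℂ V (f ^ k) =
      ∑ μ ∈ hfin.toFinset, μ ^ k * (Module.finrank ℂ (f.eigenspace μ) : ℂ) := by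
    intro k
    rw [LinearMap.trace_eq_sum_trace_restrict' hint hfin (hmap k)]
    apply Finset.sum_congr rfl
    intro μ _
    have h1 : (f ^ k).restrict (hmap k μ) = μ ^ k • LinearMap.id := by
      apply LinearMap.ext
      intro v
      apply Subtype.ext
      exact hact k μ v v.2
    rw [h1, map_smul, LinearMap.trace_id, smul_eq_mul]
  have hμ : ∀ μ ∈ hfin.toFinset, ∃ i : ℕ, ζ ^ i = μ := by
    intro μ hμ
    rw [Set.Finite.mem_toFinset] at hμ
    obtain ⟨v, hv, hv0⟩ := Submodule.exists_mem_ne_zero_of_ne_bot hμ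
    have h2 := hact N μ v hv
    rw [hf, Module.End.one_apply] at h2
    have h3 : (μ ^ N - 1) • v = 0 := by
      rw [sub_smul, ← h2, one_smul, sub_self]
    have h4 : μ ^ N = 1 := by
      rcases smul_eq_zero.1 h3 with h4 | h4
      · linear_combination h4
      · exact absurd h4 hv0
    obtain ⟨i, -, hi⟩ := hζ.eq_pow_of_pow_eq_one h4
    exact ⟨i, hi⟩
  choose! e he using hμ
  refine ⟨∑ μ ∈ hfin.toFinset, Polynomial.X ^ e μ * Polynomial.C (Module.finrank ℂ (f.eigenspace μ) : ℤ), ?_⟩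
  intro s
  rw [htr s, map_sum]
  apply Finset.sum_congr rfl
  intro μ hμ
  rw [map_mul, Polynomial.aeval_C, map_pow, Polynomial.aeval_X, ← pow_mul, mul_comm s, pow_mul, he μ hμ]
  simp

theorem ZL3_char (G : Type) [Group G] [Finite G] (K : Subgroup G) (η : G → ℂ) (hη : η ∈ IrrOn K) (v : G) (hv : v ∈ K)
    (ζ : ℂ) (hζ : IsPrimitiveRoot ζ (Nat.card G)) :
    ∃ P : Polynomial ℤ, ∀ s : ℕ, η (v ^ s) = Polynomial.aeval (ζ ^ s) P := by
  obtain ⟨h0, V, _, _, _, ρ, hρ, hch⟩ := hη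
  have hf : (ρ ⟨v, hv⟩) ^ Nat.card G = 1 := by
    rw [← map_pow]
    have h3 : (⟨v, hv⟩ : K) ^ Nat.card G = 1 := by
      apply Subtype.ext
      exact pow_card_eq_one'
    rw [h3, map_one]
  obtain ⟨P, hP⟩ := ZL3_trace (ρ ⟨v, hv⟩) (Nat.card G) Nat.card_pos hf ζ hζ
  refine ⟨P, fun s => ?_⟩
  rw [← hP s, ← map_pow]
  exact (congrFun hch (⟨v, hv⟩ ^ s)).symm

open Polynomial in
theorem ZL3_sum (n : ℕ) (hn : 0 < n) (P : Polynomial ℤ) :
    ∃ r : ℚ, ∑ μ ∈ primitiveRoots n ℂ, Polynomial.aeval μ P = (r : ℂ) := by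
  have hn0 : NeZero n := ⟨hn.ne'⟩
  have hcyc : IsCyclotomicExtension {n} ℚ (CyclotomicField n ℚ) :=
    CyclotomicField.isCyclotomicExtension n ℚ
  have hζ : IsPrimitiveRoot (IsCyclotomicExtension.zeta n ℚ (CyclotomicField n ℚ)) n :=
    IsCyclotomicExtension.zeta_spec n ℚ (CyclotomicField n ℚ)
  have hirr : Irreducible (cyclotomic n ℚ) := cyclotomic.irreducible_rat hn
  have h1 := trace_eq_sum_embeddings (K := ℚ) (L := CyclotomicField n ℚ) ℂ
    (x := aeval (IsCyclotomicExtension.zeta n ℚ (CyclotomicField n ℚ)) P)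
  refine ⟨Algebra.trace ℚ (CyclotomicField n ℚ) (aeval (IsCyclotomicExtension.zeta n ℚ (CyclotomicField n ℚ)) P), ?_⟩
  have h3 : ((Algebra.trace ℚ (CyclotomicField n ℚ)
      (aeval (IsCyclotomicExtension.zeta n ℚ (CyclotomicField n ℚ)) P) : ℚ) : ℂ) =
      algebraMap ℚ ℂ (Algebra.trace ℚ (CyclotomicField n ℚ)
      (aeval (IsCyclotomicExtension.zeta n ℚ (CyclotomicField n ℚ)) P)) := rfl
  rw [h3, h1, ← Finset.sum_coe_sort (primitiveRoots n ℂ)]
  refine (Fintype.sum_equiv (hζ.embeddingsEquivPrimitiveRoots ℂ hirr) _ _ ?_).symm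
  intro σ
  rw [IsPrimitiveRoot.embeddingsEquivPrimitiveRoots_apply_coe]
  exact (aeval_algHom_apply (σ.restrictScalars ℤ) _ P).symm

theorem ZL3_bij (p : ℕ) (G : Type) [Group G] [Finite G] (K : Subgroup G) (s : ℕ) (hs : s.Coprime (Nat.card G)) :
    Set.BijOn (fun v : G => v ^ s) {v : G | v ∈ K ∧ PReg p v} {v : G | v ∈ K ∧ PReg p v} := by
  have ho : ∀ v : G, orderOf (v ^ s) = orderOf v := by
    intro v
    exact Nat.Coprime.orderOf_pow ((hs.symm).coprime_dvd_left (orderOf_dvd_natCard v))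
  refine ⟨?_, ?_, ?_⟩
  · rintro v ⟨hvK, hv⟩
    refine ⟨K.pow_mem hvK s, ?_⟩
    unfold PReg at hv ⊢
    rw [ho]
    exact hv
  · intro v _ w _ hvw
    exact (Nat.Coprime.pow_left_bijective hs.symm).1 hvw
  · rintro w ⟨hwK, hw⟩
    obtain ⟨m, hm⟩ := exists_pow_eq_self_of_coprime (x := w) (n := s) (hs.coprime_dvd_right (orderOf_dvd_natCard w))
    have hm' : (w ^ m) ^ s = w := by rw [← pow_mul, mul_comm, pow_mul, hm]
    refine ⟨w ^ m, ⟨K.pow_mem hwK m, ?_⟩, hm'⟩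
    unfold PReg at hw ⊢
    rw [← ho (w ^ m), hm']
    exact hw

theorem ZL3 (hNRC : NRC_stmt) (hQRP : QRP_stmt) (hSTC : STC_stmt) : ZL3_stmt := by
  classical
  intro p _ G _ _ K η hη η' hη'
  have hn : 0 < Nat.card G := Nat.card_pos
  have hnn : NeZero (Nat.card G) := ⟨hn.ne'⟩
  obtain ⟨ζ, hζ⟩ : ∃ ζ : ℂ, IsPrimitiveRoot ζ (Nat.card G) := ⟨_, Complex.isPrimitiveRoot_exp _ hn.ne'⟩
  have hP : ∀ v ∈ K, ∃ P : Polynomial ℤ, ∀ s : ℕ, η (v ^ s) * η' (v ^ s)⁻¹ = Polynomial.aeval (ζ ^ s) P := by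
    intro v hv
    obtain ⟨P, hP⟩ := ZL3_char G K η hη v hv ζ hζ
    obtain ⟨P', hP'⟩ := ZL3_char G K η' hη' v⁻¹ (K.inv_mem hv) ζ hζ
    refine ⟨P * P', fun s => ?_⟩
    rw [map_mul, ← hP s, ← hP' s, inv_pow]
  choose! P hP using hP
  set S : Set G := {v : G | v ∈ K ∧ PReg p v} with hSdef
  have hSfin : S.Finite := Set.toFinite S
  set Q : Polynomial ℤ := ∑ v ∈ hSfin.toFinset, P v with hQ
  set N : ℂ := ∑ᶠ v ∈ S, η v * η' v⁻¹ with hN
  have key : ∀ s : ℕ, s.Coprime (Nat.card G) → Polynomial.aeval (ζ ^ s) Q = N := by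
    intro s hs
    have h1 : ∑ᶠ v ∈ S, η (v ^ s) * η' (v ^ s)⁻¹ = N := by
      rw [hN]
      exact finsum_mem_eq_of_bijOn (fun v : G => v ^ s) (ZL3_bij p G K s hs) (fun v _ => rfl)
    rw [← h1, finsum_mem_eq_finite_toFinset_sum _ hSfin, hQ, map_sum]
    apply Finset.sum_congr rfl
    intro v hv
    rw [Set.Finite.mem_toFinset] at hv
    exact (hP v hv.1 s).symm
  obtain ⟨r, hr⟩ := ZL3_sum (Nat.card G) hn Q
  have hsum : ∑ μ ∈ primitiveRoots (Nat.card G) ℂ, Polynomial.aeval μ Q = (Nat.totient (Nat.card G) : ℂ) * N := by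
    have h1 : ∀ μ ∈ primitiveRoots (Nat.card G) ℂ, Polynomial.aeval μ Q = N := by
      intro μ hμ
      rw [mem_primitiveRoots hn] at hμ
      obtain ⟨s, -, hs, hsμ⟩ := hζ.isPrimitiveRoot_iff.1 hμ
      rw [← hsμ]
      exact key s hs
    rw [Finset.sum_congr rfl h1, Finset.sum_const, Complex.card_primitiveRoots, nsmul_eq_mul]
  have htot : (Nat.totient (Nat.card G) : ℂ) ≠ 0 := by
    exact_mod_cast (Nat.totient_pos.2 hn).ne'
  refine ⟨r / Nat.totient (Nat.card G) / Nat.card K, ?_⟩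
  unfold EE
  push_cast
  rw [← hr, hsum, mul_div_cancel_left₀ _ htot]

end Pool.Agent.LE
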